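import Pool.Agent.Run7.h760.Deg

/-!
The linear coefficients of the degree of the coloured Jones polynomial are not positive for all
nontrivial knots which are closures of braids on three strands.

The definitions are in `Pool/Agent/Run7/h760/CJ.lean`.
-/

set_option autoImplicit false

namespace Pool.Agent.Results.MP_ab49bb_gt.ClosedThreeBraids

open Pool.Agent.Run7.h760.CJ

/-- Let `w` be a braid word on three strands whose closure is a nontrivial knot `K`.  If, for all
large `N`, the maximal degree in `v` of the unnormalised `N`-coloured Jones polynomial of `K` is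
`a_j N^2 + 2 b_j N + c_j`, with `j` the class of `N` modulo `p`, then `b_j ≤ 0` for all `j`. -/
theorem result (w : Word 2) (hK : IsKnot w) (hU : ¬ IsUnknot w) (p : ℕ) (hp : 0 < p)
    (a b c : ZMod p → ℚ) (h : IsDegree w p a b c) (j : ZMod p) : b j ≤ 0 :=
  Pool.Agent.Run7.h760.CJ.final w hK hU p hp a b c h j

end Pool.Agent.Results.MP_ab49bb_gt.ClosedThreeBraids
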